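import Pool.Agent.H496R3.ShiftMain

set_option autoImplicit false

namespace Pool.Agent.Results.MP_391708_nt.EvenRoughShifts

/-- Let `a ≡ 1 mod 4`, `a ≢ 2 mod 3` and `a ≢ ±1 mod 5`. There is `X₀` (depending on `a` only)
such that for every completely multiplicative function `h` with values `±1` and all `X ≥ X₀`, at
least `X ^ (1/4) / (log X) ^ 325` of the `t ≤ X` are such that `h (t ^ 2 + a) = 1` and all prime
factors of `t ^ 2 + a` exceed `X ^ (1/24000)`. -/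
theorem result (a : ℕ) (h4 : a % 4 = 1) (h3 : a % 3 ≠ 2) (h5 : a % 5 ≠ 1 ∧ a % 5 ≠ 4) :
    ∃ X₀ : ℕ, ∀ h : ℕ → ℤ, (∀ m n : ℕ, m ≠ 0 → n ≠ 0 → h (m * n) = h m * h n) →
      (∀ m : ℕ, m ≠ 0 → h m = 1 ∨ h m = -1) → ∀ X : ℕ, X₀ ≤ X →
      (X : ℝ) ^ ((1 : ℝ) / 4) / Real.log X ^ 325 ≤
        (({t : ℕ | t ≤ X ∧
          (∀ p : ℕ, p.Prime → p ∣ t ^ 2 + a → (X : ℝ) ^ ((1 : ℝ) / 24000) < p) ∧
          h (t ^ 2 + a) = 1} : Set ℕ).ncard : ℝ) := by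
  obtain ⟨j, rfl⟩ : ∃ j, a = 4 * j + 1 := ⟨a / 4, by omega⟩
  exact Pool.Agent.H496R3.Shift.mainS (j := j) (by omega) (by omega) (by omega)

end Pool.Agent.Results.MP_391708_nt.EvenRoughShifts
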