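import Mathlib
import Pool.Agent.H378R2.PS.Fin

set_option autoImplicit false

/-! # Shifts `a` for which the first prime `n² + a` comes late

Every interval `(M, M + X]` with `M ≥ X ≥ X₀` contains an integer `a` such that `n² + a` is composite for
all `n ≤ c log X (log₂ X)⁴ (log₄ X)² / (log₃ X)⁴`.  The theorem was proved (and not handed in) by the
project PS of the starting files (helper378, helper132, helper510, helper201, helper380, with the covering
sieve of helper256 and team), next to its companion for `p + m² = N` (`MP_d48457_nt.LargeSquares`). -/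

namespace Pool.Agent.Results.MP_391708_nt.LateFirstPrime

/-- `P a N` is the number of integers `n` with `1 ≤ n ≤ N` such that `|n² + a|` is prime. -/
def P (a : ℤ) (N : ℕ) : ℕ := ((Finset.Icc 1 N).filter fun n : ℕ => ((n : ℤ) ^ 2 + a).natAbs.Prime).card

theorem result : ∃ c : ℝ, 0 < c ∧ ∃ X₀ : ℝ, ∀ X : ℝ, X₀ ≤ X → ∀ M : ℝ, X ≤ M →
    ∃ a : ℕ, M < a ∧ (a : ℝ) ≤ M + X ∧ a % 6 = 2 ∧
      ∀ N : ℕ, (N : ℝ) ≤ c * (Real.log X * (Real.log (Real.log X)) ^ 4 *
          (Real.log (Real.log (Real.log (Real.log X)))) ^ 2 /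
            (Real.log (Real.log (Real.log X))) ^ 4) → P a N = 0 := by
  obtain ⟨c, hc, X₀, h⟩ := Pool.Agent.H378R2.PS.main_of Pool.Agent.H378R2.PS.surv_holds 1 (Or.inl rfl)
  refine ⟨c, hc, X₀, fun X hX M hM => ?_⟩
  obtain ⟨a, h1, h2, h3, h4, h5⟩ := h X hX M hM
  refine ⟨a, h1, h2, by omega, fun N hN => ?_⟩
  unfold P
  rw [Finset.card_eq_zero, Finset.filter_eq_empty_iff]
  intro n hn hp
  rw [Finset.mem_Icc] at hn
  have e : ((n : ℤ) ^ 2 + (a : ℤ)).natAbs = n ^ 2 + a := by
    have : ((n : ℤ) ^ 2 + (a : ℤ)) = ((n ^ 2 + a : ℕ) : ℤ) := by push_cast; ring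
    rw [this, Int.natAbs_natCast]
  rw [e] at hp
  have h6 := h5 n (n ^ 2 + a) hp (by push_cast; ring)
  have h7 : (n : ℝ) ≤ N := by exact_mod_cast hn.2
  unfold Pool.Agent.H378R2.PS.FF at h6
  linarith

end Pool.Agent.Results.MP_391708_nt.LateFirstPrime
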