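import Pool.Agent.H222R3.TV.Final

set_option autoImplicit false

/-! # Completely additive functions along `n² + a`

For every `a ≥ 1`: a completely additive function `f` with values in a finite abelian group takes at
least three different values on the numbers `n² + a`, each for at least `X / (log X)^41` of the
integers `n` in `(X, 2X]`, for arbitrarily large `X`, as soon as (i) its values at the odd numbers
`s² + a t² > 1` prime to `s t` generate a group with at least three elements, or (ii) `f q = h` for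
infinitely many primes `q ≡ 1 (mod 4a)`, where `4 h ≠ 0`.  In particular `Ω(n² + a)` takes every
residue class modulo three that often.

The case `a = 1` is `MP_7169d5_nt.ThreeValues` (starting file `H359R4.Main`); the engine
(`H359R3`, `H359R4`) is used here, the new parts are the rotations by elements of `ℤ[√(-a)]`
(no unique factorisation) and the existence of represented numbers with prescribed values. -/

namespace Pool.Agent.Results.MP_391708_nt.ThreeValues

theorem result (a : ℕ) (ha : 1 ≤ a) :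
    (∀ (H : Type) [AddCommGroup H] [Finite H] (f : ℕ → H),
      (∀ m n : ℕ, m ≠ 0 → n ≠ 0 → f (m * n) = f m + f n) →
      (3 ≤ Nat.card (AddSubgroup.closure {x : H | ∃ s t : ℕ,
          Nat.Coprime (s ^ 2 + a * t ^ 2) (2 * s * t) ∧ 1 < s ^ 2 + a * t ^ 2 ∧
          f (s ^ 2 + a * t ^ 2) = x}) ∨
        ∃ h : H, 4 • h ≠ 0 ∧ {q : ℕ | q.Prime ∧ q % (4 * a) = 1 ∧ f q = h}.Infinite) →
      ∃ S : Finset H, S.card = 3 ∧ ∀ h ∈ S, ∀ X0 : ℕ, ∃ X : ℕ, X0 ≤ X ∧
        (X : ℝ) / Real.log X ^ 41 ≤ (Set.ncard {n : ℕ | X < n ∧ n ≤ 2 * X ∧ f (n ^ 2 + a) = h ∧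
          ∃ s m : ℕ, n ^ 2 + a = s ^ 2 * m ∧ Squarefree m ∧ (s : ℝ) ≤ Real.log X ^ 45} : ℝ)) ∧
    (∀ r : ℕ, r < 3 → ∀ X0 : ℕ, ∃ X : ℕ, X0 ≤ X ∧
        (X : ℝ) / Real.log X ^ 41 ≤ (Set.ncard {n : ℕ | X < n ∧ n ≤ 2 * X ∧
          ArithmeticFunction.cardFactors (n ^ 2 + a) % 3 = r ∧
          ∃ s m : ℕ, n ^ 2 + a = s ^ 2 * m ∧ Squarefree m ∧ (s : ℝ) ≤ Real.log X ^ 45} : ℝ)) := by
  refine ⟨?_, ?_⟩
  · intro H _ _ f hf hyp
    have hcard : 3 ≤ Nat.card (AddSubgroup.closure (Pool.Agent.H222R3.TV.Vals a f)) := by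
      rcases hyp with h | ⟨h, h4, hinf⟩
      · exact h
      · exact Pool.Agent.H222R3.TV.card_of_four a f h h4
          (Pool.Agent.H222R3.TV.two_smul_mem a ha f hf h hinf)
    exact Pool.Agent.H222R3.TV.three_values a ha f hf hcard
  · intro r hr X0
    obtain ⟨X, hX0, hX⟩ := Pool.Agent.H222R3.TV.omega_mod_three a ha r hr X0
    refine ⟨X, hX0, hX.trans (le_of_eq ?_)⟩
    congr 1
    congr 1
    ext n
    simp only [Pool.Agent.H222R3.TV.GH, Set.mem_setOf_eq]
    have hiff : ((ArithmeticFunction.cardFactors (n ^ 2 + a) : ℕ) : ZMod 3) = (r : ZMod 3) ↔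
        ArithmeticFunction.cardFactors (n ^ 2 + a) % 3 = r := by
      rw [ZMod.natCast_eq_natCast_iff, Nat.ModEq, Nat.mod_eq_of_lt hr]
    rw [hiff]

end Pool.Agent.Results.MP_391708_nt.ThreeValues
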